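import Mathlib
import Pool.Agent.X302.TR.Stm

set_option autoImplicit false

namespace Pool.Agent.X295.TR

open Pool.Agent.X302.TR

variable {n : ℕ}

/-- `(x, y, z) ↦ f x * g y * h z` -/
noncomputable def tri (f g h : V n →ₗ[ℝ] ℝ) : V n →ₗ[ℝ] V n →ₗ[ℝ] V n →ₗ[ℝ] ℝ :=
  f.smulRight (g.smulRight h)

lemma tri_apply (f g h : V n →ₗ[ℝ] ℝ) (x y z : V n) : tri f g h x y z = f x * g y * h z := by
  simp [tri, mul_assoc]

noncomputable def bi (f g : V n →ₗ[ℝ] ℝ) : V n →ₗ[ℝ] V n →ₗ[ℝ] ℝ := f.smulRight g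

lemma bi_apply (f g : V n →ₗ[ℝ] ℝ) (x y : V n) : bi f g x y = f x * g y := by simp [bi]

/-- a function is cubic -/
def IsC (φ : V n → ℝ) : Prop := ∃ F : Cub n, ∀ x, F.val x = φ x

lemma isC_zero : IsC (fun _ : V n => 0) :=
  ⟨⟨0, 0, 0, 0, fun _ _ _ => by simp, fun _ _ _ => by simp, fun _ _ => by simp⟩, fun x => by simp [Cub.val]⟩

lemma isC_add {φ ψ : V n → ℝ} (h1 : IsC φ) (h2 : IsC ψ) : IsC (fun x => φ x + ψ x) := by
  obtain ⟨F, hF⟩ := h1
  obtain ⟨F', hF'⟩ := h2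
  refine ⟨⟨F.T + F'.T, F.Q + F'.Q, F.L + F'.L, F.c + F'.c, fun x y z => ?_, fun x y z => ?_, fun x y => ?_⟩,
    fun x => ?_⟩
  · simp only [LinearMap.add_apply]; rw [F.T1, F'.T1]
  · simp only [LinearMap.add_apply]; rw [F.T2, F'.T2]
  · simp only [LinearMap.add_apply]; rw [F.Q1, F'.Q1]
  · beta_reduce
    rw [← hF, ← hF']
    simp only [Cub.val, LinearMap.add_apply]
    ring

lemma isC_smul {φ : V n → ℝ} (a : ℝ) (h1 : IsC φ) : IsC (fun x => a * φ x) := by
  obtain ⟨F, hF⟩ := h1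
  refine ⟨⟨a • F.T, a • F.Q, a • F.L, a * F.c, fun x y z => ?_, fun x y z => ?_, fun x y => ?_⟩,
    fun x => ?_⟩
  · simp only [LinearMap.smul_apply]; rw [F.T1]
  · simp only [LinearMap.smul_apply]; rw [F.T2]
  · simp only [LinearMap.smul_apply]; rw [F.Q1]
  · beta_reduce
    rw [← hF]
    simp only [Cub.val, LinearMap.smul_apply, smul_eq_mul]
    ring

lemma isC_const (a : ℝ) : IsC (fun _ : V n => a) :=
  ⟨⟨0, 0, 0, a, fun _ _ _ => by simp, fun _ _ _ => by simp, fun _ _ => by simp⟩, fun x => by simp [Cub.val]⟩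

lemma isC_lin (f : V n →ₗ[ℝ] ℝ) : IsC (fun x : V n => f x) :=
  ⟨⟨0, 0, f, 0, fun _ _ _ => by simp, fun _ _ _ => by simp, fun _ _ => by simp⟩, fun x => by simp [Cub.val]⟩

lemma isC_quad (f g : V n →ₗ[ℝ] ℝ) : IsC (fun x : V n => f x * g x) := by
  refine ⟨⟨0, (1 / 2 : ℝ) • (bi f g + bi g f), 0, 0, fun _ _ _ => by simp, fun _ _ _ => by simp,
    fun x y => ?_⟩, fun x => ?_⟩
  · simp only [LinearMap.smul_apply, LinearMap.add_apply, bi_apply, smul_eq_mul]
    ring
  · simp only [Cub.val, LinearMap.smul_apply, LinearMap.add_apply, bi_apply, smul_eq_mul,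
      LinearMap.zero_apply]
    ring

lemma isC_cubic (f g h : V n →ₗ[ℝ] ℝ) : IsC (fun x : V n => f x * g x * h x) := by
  refine ⟨⟨(1 / 6 : ℝ) • (tri f g h + tri f h g + tri g f h + tri g h f + tri h f g + tri h g f), 0, 0, 0,
    fun x y z => ?_, fun x y z => ?_, fun _ _ => by simp⟩, fun x => ?_⟩
  · simp only [LinearMap.smul_apply, LinearMap.add_apply, tri_apply, smul_eq_mul]
    ring
  · simp only [LinearMap.smul_apply, LinearMap.add_apply, tri_apply, smul_eq_mul]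
    ring
  · simp only [Cub.val, LinearMap.smul_apply, LinearMap.add_apply, tri_apply, smul_eq_mul,
      LinearMap.zero_apply]
    ring

lemma isC_sum {ι : Type*} (s : Finset ι) (φ : ι → V n → ℝ) (h : ∀ i ∈ s, IsC (φ i)) :
    IsC (fun x => ∑ i ∈ s, φ i x) := by
  classical
  induction s using Finset.induction_on with
  | empty => simpa using isC_zero
  | insert a s ha ih =>
    simp only [Finset.sum_insert ha]
    exact isC_add (h a (Finset.mem_insert_self a s)) (ih fun i hi => h i (Finset.mem_insert_of_mem hi))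

lemma isC_multiset (m : Multiset (Fin n)) (hm : m.card ≤ 3) : IsC (fun x : V n => (m.map x).prod) := by
  have hp : ∀ i : Fin n, ∀ x : V n, x i = (LinearMap.proj i : V n →ₗ[ℝ] ℝ) x := fun i x => rfl
  obtain h | h | h | h : m.card = 0 ∨ m.card = 1 ∨ m.card = 2 ∨ m.card = 3 := by omega
  · rw [Multiset.card_eq_zero] at h
    subst h
    simpa using isC_const 1
  · obtain ⟨i, rfl⟩ := Multiset.card_eq_one.1 h
    simpa using isC_lin (LinearMap.proj i : V n →ₗ[ℝ] ℝ)
  · obtain ⟨i, j, rfl⟩ := Multiset.card_eq_two.1 h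
    simpa using isC_quad (LinearMap.proj i : V n →ₗ[ℝ] ℝ) (LinearMap.proj j)
  · obtain ⟨i, j, k, rfl⟩ := Multiset.card_eq_three.1 h
    simpa [mul_assoc] using isC_cubic (LinearMap.proj i : V n →ₗ[ℝ] ℝ) (LinearMap.proj j) (LinearMap.proj k)

theorem t_POLY : S_POLY := by
  intro n f hf
  have h1 : IsC (fun x : V n => ∑ d ∈ f.support, f.coeff d * ((Finsupp.toMultiset d).map x).prod) := by
    refine isC_sum _ _ fun d hd => isC_smul _ (isC_multiset _ ?_)
    rw [Finsupp.card_toMultiset]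
    exact (MvPolynomial.le_totalDegree hd).trans hf
  obtain ⟨F, hF⟩ := h1
  refine ⟨F, fun x => ?_⟩
  rw [hF, MvPolynomial.eval_eq]
  refine Finset.sum_congr rfl fun d _ => ?_
  congr 1
  rw [Finset.prod_multiset_map_count, Finsupp.toFinset_toMultiset]
  exact Finset.prod_congr rfl fun i _ => by rw [Finsupp.count_toMultiset]

end Pool.Agent.X295.TR
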